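import Pool.Agent.H561.GN.G5

set_option autoImplicit false

/-! The exceptional set at one scale, and prime powers. -/

namespace Pool.Agent.H561.GN

open Finset
open Pool.Agent.H373R2.T7
open Pool.Agent.W93.GB

variable {k : ℕ}

open Classical in
/-- **The exceptional set at one scale.** -/
theorem exc_of (V A c : ℕ) : ∃ X₀ : ℕ, ∀ X : ℕ, X₀ ≤ X → ∀ (ι : Type) (Ω : Finset ι) (f : ι → Fin k → ℕ → ℤ) (S : ι → ℝ)
    (M : ι → ℕ → ℝ) (Y : ℝ) (P : ℕ), 0 ≤ Y → Real.log X ^ (V + c + 4) ≤ P → (∀ ω ∈ Ω, 0 ≤ S ω ∧ S ω ≤ Real.log X ^ c) →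
    (∀ ω ∈ Ω, ∀ y ≤ P, |M ω y - S ω * y| ≤ P / Real.log X ^ (V + 1)) →
    (∀ y ≤ P, ∑ ω ∈ Ω, (RR (f ω) y - M ω y) ^ 2 ≤ Y * (P : ℝ) ^ 2 / Real.log X ^ (A + 3 * V + c + 9)) →
    ((Ω.filter (fun ω => ∃ y : ℕ, y ≤ P ∧ (P : ℝ) / Real.log X ^ V < |RR (f ω) y - S ω * y|)).card : ℝ) ≤ Y / Real.log X ^ A := by
  obtain ⟨n1, h1⟩ := ev_L' 100
  refine ⟨n1 + 3, fun X hX ι Ω f S M Y P hY hP hS hM hQ => ?_⟩
  have hL := h1 X (by omega)
  obtain ⟨L, hLd⟩ : ∃ L, L = Real.log (X : ℝ) := ⟨_, rfl⟩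
  rw [← hLd] at hL hP hS hM hQ ⊢
  have hL1 : 1 ≤ L := by linarith
  have hL0 : 0 < L := by linarith
  have hP0 : (0 : ℝ) < P := lt_of_lt_of_le (by positivity) hP
  obtain ⟨T, hT⟩ : ∃ T, T = ⌈L ^ (V + c + 2)⌉₊ := ⟨_, rfl⟩
  have hT1 : L ^ (V + c + 2) ≤ T := by rw [hT]; exact Nat.le_ceil _
  have hT3 : (1 : ℝ) ≤ L ^ (V + c + 2) := one_le_pow₀ hL1
  have hT2 : (T : ℝ) ≤ 2 * L ^ (V + c + 2) := by
    have e1 := (Nat.ceil_lt_add_one (show 0 ≤ L ^ (V + c + 2) by positivity)).le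
    rw [← hT] at e1
    linarith
  have hT0 : (0 : ℝ) < T := by linarith
  have hTn : 1 ≤ T := by exact_mod_cast hT0
  have hκ : (0 : ℝ) < P / L ^ (V + 1) := by positivity
  have hg := grid_exc Ω P T hTn (fun ω y => RR (f ω) y) M S (P / L ^ (V + 1)) (P / L ^ (V + 1)) (L ^ c)
    (Y * (P : ℝ) ^ 2 / L ^ (A + 3 * V + c + 9)) hκ (fun ω _ y y' h => RR_mono (f ω) y y' h) hS hM hQ
  have hsub : Ω.filter (fun ω => ∃ y : ℕ, y ≤ P ∧ (P : ℝ) / L ^ V < |RR (f ω) y - S ω * y|) ⊆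
      Ω.filter (fun ω => ∃ y : ℕ, y ≤ P ∧ P / L ^ (V + 1) + P / L ^ (V + 1) + L ^ c * ((P : ℝ) / T + 1) < |RR (f ω) y - S ω * y|) := by
    intro ω hω
    rw [mem_filter] at hω ⊢
    obtain ⟨h1, y, hy, hyb⟩ := hω
    refine ⟨h1, y, hy, lt_of_le_of_lt ?_ hyb⟩
    have e1 : L ^ c * ((P : ℝ) / T) ≤ P / L ^ (V + 1) := by
      calc L ^ c * ((P : ℝ) / T) ≤ L ^ c * ((P : ℝ) / L ^ (V + c + 2)) := by gcongr
        _ = P / L ^ (V + 2) := by
            rw [show V + c + 2 = (V + 2) + c by ring, pow_add L (V + 2) c]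
            field_simp
        _ ≤ P / L ^ (V + 1) := by
            apply div_le_div_of_nonneg_left hP0.le (by positivity)
            exact pow_le_pow_right₀ hL1 (by omega)
    have e2 : L ^ c * 1 ≤ P / L ^ (V + 1) := by
      rw [mul_one, le_div_iff₀ (by positivity), ← pow_add]
      refine le_trans ?_ hP
      exact pow_le_pow_right₀ hL1 (by omega)
    have e3 : (P : ℝ) / L ^ V = L * (P / L ^ (V + 1)) := by
      rw [pow_succ]
      field_simp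
    rw [e3, mul_add]
    nlinarith
  have hcard : ((Ω.filter (fun ω => ∃ y : ℕ, y ≤ P ∧ (P : ℝ) / L ^ V < |RR (f ω) y - S ω * y|)).card : ℝ) ≤
      ((T : ℝ) + 1) * ((Y * (P : ℝ) ^ 2 / L ^ (A + 3 * V + c + 9)) / (P / L ^ (V + 1)) ^ 2) := by
    refine le_trans ?_ hg
    exact_mod_cast card_le_card hsub
  refine hcard.trans ?_
  calc ((T : ℝ) + 1) * ((Y * (P : ℝ) ^ 2 / L ^ (A + 3 * V + c + 9)) / (P / L ^ (V + 1)) ^ 2)
      ≤ (3 * L ^ (V + c + 2)) * ((Y * (P : ℝ) ^ 2 / L ^ (A + 3 * V + c + 9)) / (P / L ^ (V + 1)) ^ 2) := by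
        apply mul_le_mul_of_nonneg_right _ (by positivity)
        linarith
    _ = (3 / L ^ 5) * (Y / L ^ A) := by
        field_simp
        ring
    _ ≤ 1 * (Y / L ^ A) := by
        apply mul_le_mul_of_nonneg_right _ (by positivity)
        rw [div_le_one (by positivity)]
        have : L ≤ L ^ 5 := le_self_pow₀ hL1 (by norm_num)
        linarith
    _ = _ := one_mul _

/-- the number of the proper prime powers -/
lemma card_pp (Z : ℕ) (hZ : 1 ≤ Z) : (((Icc 1 Z).filter (fun b : ℕ => lamI (b : ℤ) ≠ lamP (b : ℤ))).card : ℝ) ≤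
    4 * √(Z : ℝ) * Real.log Z := by
  classical
  have h1 := sum_pp Z hZ
  have h2 : ∀ b ∈ (Icc 1 Z).filter (fun b : ℕ => lamI (b : ℤ) ≠ lamP (b : ℤ)), (1 / 2 : ℝ) ≤ pp b := by
    intro b hb
    rw [mem_filter] at hb
    obtain ⟨_, hb2⟩ := hb
    rw [lam_nat] at hb2
    unfold pp
    unfold lamP at hb2 ⊢
    rw [Int.toNat_natCast] at hb2 ⊢
    by_cases hbp : b.Prime
    · rw [if_pos hbp] at hb2
      exfalso
      exact hb2 (ArithmeticFunction.vonMangoldt_apply_prime hbp)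
    · rw [if_neg hbp] at hb2 ⊢
      rw [sub_zero]
      have h3 : IsPrimePow b := by
        by_contra hc
        exact hb2 (ArithmeticFunction.vonMangoldt_eq_zero_iff.2 hc)
      rw [ArithmeticFunction.vonMangoldt_apply, if_pos h3]
      have h4 : 2 ≤ b.minFac := (Nat.minFac_prime (by intro h; rw [h] at h3; exact not_isPrimePow_one h3)).two_le
      have h5 : Real.log 2 ≤ Real.log b.minFac := Real.log_le_log (by norm_num) (by exact_mod_cast h4)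
      have := Real.log_two_gt_d9
      linarith
  have h3 := card_nsmul_le_sum _ _ _ h2
  rw [nsmul_eq_mul] at h3
  have h4 : ∑ b ∈ (Icc 1 Z).filter (fun b : ℕ => lamI (b : ℤ) ≠ lamP (b : ℤ)), pp b ≤ ∑ b ∈ Icc 1 Z, pp b := by
    apply sum_le_sum_of_subset_of_nonneg (filter_subset _ _)
    intro b _ _
    exact pp_nonneg b
  linarith

end Pool.Agent.H561.GN
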