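import Pool.Graph.R_seed8.W93.PG5
import Pool.Graph.R_seed8.H373R2.T7.LamMaj

set_option autoImplicit false

/-! From a mean square at fixed lengths to all lengths up to `P`, for almost all members of a family. -/

namespace Pool.Agent.H561.GN

open Finset
open Pool.Agent.W93.PP (grid)

open Classical in
/-- **The grid.** -/
theorem grid_exc {ι : Type*} (Ω : Finset ι) (P T : ℕ) (hT : 1 ≤ T) (R M : ι → ℕ → ℝ) (S : ι → ℝ) (η κ B Q : ℝ) (hκ : 0 < κ)
    (hR : ∀ ω ∈ Ω, ∀ y y' : ℕ, y ≤ y' → R ω y ≤ R ω y') (hS : ∀ ω ∈ Ω, 0 ≤ S ω ∧ S ω ≤ B)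
    (hM : ∀ ω ∈ Ω, ∀ y ≤ P, |M ω y - S ω * y| ≤ η)
    (hQ : ∀ y ≤ P, ∑ ω ∈ Ω, (R ω y - M ω y) ^ 2 ≤ Q) :
    ((Ω.filter (fun ω => ∃ y : ℕ, y ≤ P ∧ η + κ + B * ((P : ℝ) / T + 1) < |R ω y - S ω * y|)).card : ℝ) ≤
      ((T : ℝ) + 1) * (Q / κ ^ 2) := by
  obtain ⟨s, hs⟩ : ∃ s, s = P / T + 1 := ⟨_, rfl⟩
  have hsr : (s : ℝ) ≤ (P : ℝ) / T + 1 := by
    rw [hs]
    push_cast
    have := @Nat.cast_div_le ℝ _ _ _ P T
    linarith
  have hs1 : 1 ≤ s := by rw [hs]; exact Nat.le_add_left 1 _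
  have hsT : P < T * s := by
    rw [hs]
    exact Nat.lt_mul_div_succ P (show 0 < T by omega)
  obtain ⟨Bd, hBd⟩ : ∃ Bd : ℕ → Finset ι, Bd = fun i => Ω.filter (fun ω =>
    κ < |R ω (min (i * s) P) - M ω (min (i * s) P)|) := ⟨_, rfl⟩
  have hsub : Ω.filter (fun ω => ∃ y : ℕ, y ≤ P ∧ η + κ + B * ((P : ℝ) / T + 1) < |R ω y - S ω * y|) ⊆
      (range (T + 1)).biUnion Bd := by
    intro ω hω
    rw [mem_filter] at hω
    obtain ⟨hωΩ, y, hy, hyb⟩ := hω
    by_contra hcon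
    have hgood : ∀ i ∈ range (T + 1), |R ω (min (i * s) P) - M ω (min (i * s) P)| ≤ κ := by
      intro i hi
      by_contra hc
      apply hcon
      rw [mem_biUnion]
      refine ⟨i, hi, ?_⟩
      rw [hBd]
      simp only [mem_filter]
      exact ⟨hωΩ, not_le.1 hc⟩
    have hgrid : ∀ i ∈ range (T + 1), |R ω (min (i * s) P) - S ω * (min (i * s) P : ℕ)| ≤ η + κ := by
      intro i hi
      have h1 := hgood i hi
      have h2 := hM ω hωΩ (min (i * s) P) (min_le_right _ _)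
      have h3 : R ω (min (i * s) P) - S ω * (min (i * s) P : ℕ) =
        (M ω (min (i * s) P) - S ω * (min (i * s) P : ℕ)) + (R ω (min (i * s) P) - M ω (min (i * s) P)) := by ring
      rw [h3]
      exact (abs_add_le _ _).trans (by linarith)
    have hall := grid (R ω) (fun y y' hyy => hR ω hωΩ y y' hyy) (S ω) (η + κ) (hS ω hωΩ).1 P s T
      hs1 hsT hgrid y hy
    have h4 : S ω * s ≤ B * ((P : ℝ) / T + 1) := by
      have hB := (hS ω hωΩ).1.trans (hS ω hωΩ).2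
      exact mul_le_mul (hS ω hωΩ).2 hsr (Nat.cast_nonneg _) hB
    linarith
  have hQ0 : 0 ≤ Q := (sum_nonneg fun ω _ => sq_nonneg (R ω 0 - M ω 0)).trans (hQ 0 (Nat.zero_le _))
  have hcard : ∀ i ∈ range (T + 1), ((Bd i).card : ℝ) ≤ Q / κ ^ 2 := by
    intro i _
    rw [le_div_iff₀ (by positivity), ← nsmul_eq_mul]
    refine le_trans ?_ (hQ (min (i * s) P) (min_le_right _ _))
    refine le_trans (card_nsmul_le_sum (Bd i) (fun ω => (R ω (min (i * s) P) - M ω (min (i * s) P)) ^ 2) _ ?_) ?_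
    · intro ω hω
      rw [hBd] at hω
      simp only [mem_filter] at hω
      rw [← sq_abs (R ω (min (i * s) P) - M ω (min (i * s) P))]
      exact pow_le_pow_left₀ hκ.le hω.2.le 2
    · apply sum_le_sum_of_subset_of_nonneg
      · intro ω hω
        rw [hBd] at hω
        simp only [mem_filter] at hω
        exact hω.1
      · intro ω _ _
        positivity
  calc ((Ω.filter (fun ω => ∃ y : ℕ, y ≤ P ∧ η + κ + B * ((P : ℝ) / T + 1) < |R ω y - S ω * y|)).card : ℝ)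
      ≤ (((range (T + 1)).biUnion Bd).card : ℝ) := by exact_mod_cast card_le_card hsub
    _ ≤ ∑ i ∈ range (T + 1), ((Bd i).card : ℝ) := by exact_mod_cast card_biUnion_le
    _ ≤ ∑ i ∈ range (T + 1), Q / κ ^ 2 := sum_le_sum hcard
    _ = _ := by
        rw [sum_const, card_range, nsmul_eq_mul]
        push_cast
        ring

end Pool.Agent.H561.GN
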