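import Pool.Agent.H561.GN.G1
import Pool.Graph.R_seed8.W93.GB2

set_option autoImplicit false

/-! From sums weighted by von Mangoldt's function to the number of the primes, several forms. -/

namespace Pool.Agent.H561.GN

open Finset
open Pool.Agent.H373R2.T7
open Pool.Agent.W93.GB

variable {k : ℕ}

/-- the weighted number of the `n ≤ y` -/
noncomputable def RR (f : Fin k → ℕ → ℤ) (y : ℕ) : ℝ :=
  ∑ n ∈ Icc 1 y, ArithmeticFunction.vonMangoldt n * ∏ i, lamI (f i n)

/-- the primes of an interval with prime values -/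
def PS (f : Fin k → ℕ → ℤ) (a b : ℕ) : Finset ℕ := (Ioc a b).filter (fun n => n.Prime ∧ ∀ i, (f i n).toNat.Prime)

open Classical in
/-- the arguments with a value that is a proper prime power -/
noncomputable def BP (f : Fin k → ℕ → ℤ) (P : ℕ) : Finset ℕ := (Icc 1 P).filter (fun n => ∃ i, lamI (f i n) ≠ lamP (f i n))

lemma RR_sub (f : Fin k → ℕ → ℤ) (a b : ℕ) (h : a ≤ b) :
    RR f b - RR f a = ∑ n ∈ Ioc a b, ArithmeticFunction.vonMangoldt n * ∏ i, lamI (f i n) := by
  unfold RR
  have h1 : Icc 1 b = Icc 1 a ∪ Ioc a b := by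
    ext n
    rw [mem_union, mem_Icc, mem_Icc, mem_Ioc]
    omega
  rw [h1, sum_union]
  · ring
  · rw [disjoint_left]
    intro n hn hn'
    rw [mem_Icc] at hn
    rw [mem_Ioc] at hn'
    omega

lemma RR_mono (f : Fin k → ℕ → ℤ) (a b : ℕ) (h : a ≤ b) : RR f a ≤ RR f b := by
  unfold RR
  apply sum_le_sum_of_subset_of_nonneg (Icc_subset_Icc_right h)
  intro n _ _
  exact mul_nonneg ArithmeticFunction.vonMangoldt_nonneg (prod_nonneg fun i _ => lamI_nonneg _)

lemma low (f : Fin k → ℕ → ℤ) (a b P : ℕ) (h : a ≤ b) (hbP : b ≤ P) (hb : 1 ≤ b) (Lm : ℝ) (hLm : 0 ≤ Lm)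
    (hf : ∀ n ∈ Ioc a b, ∀ i, lamI (f i n) ≤ Lm) :
    RR f b - RR f a ≤ (((PS f a b).card : ℝ) + (BP f P).card) * (Real.log b * Lm ^ k) + 2 * √(P : ℝ) * Real.log P * Lm ^ k := by
  classical
  rw [RR_sub f a b h]
  have hlb : 0 ≤ Real.log b := Real.log_natCast_nonneg b
  have hLk : 0 ≤ Lm ^ k := pow_nonneg hLm k
  have h1 : ∀ n ∈ Ioc a b, ArithmeticFunction.vonMangoldt n * ∏ i, lamI (f i n) ≤
      ((if n ∈ PS f a b then (1 : ℝ) else 0) + (if n ∈ BP f P then (1 : ℝ) else 0)) * (Real.log b * Lm ^ k) + pp n * Lm ^ k := by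
    intro n hn
    have hn' := mem_Ioc.1 hn
    have hprod : ∏ i, lamI (f i n) ≤ Lm ^ k := by
      calc ∏ i, lamI (f i n) ≤ ∏ _i : Fin k, Lm := prod_le_prod (fun i _ => lamI_nonneg _) (fun i _ => hf n hn i)
        _ = Lm ^ k := by rw [prod_const, card_univ, Fintype.card_fin]
    have hprod0 : 0 ≤ ∏ i, lamI (f i n) := prod_nonneg fun i _ => lamI_nonneg _
    have hv0 : (0 : ℝ) ≤ ArithmeticFunction.vonMangoldt n := ArithmeticFunction.vonMangoldt_nonneg
    have hpp := pp_nonneg n
    by_cases hp : n.Prime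
    · have hv : ArithmeticFunction.vonMangoldt n ≤ Real.log b := by
        refine ArithmeticFunction.vonMangoldt_le_log.trans ?_
        exact Real.log_le_log (by exact_mod_cast hp.pos) (by exact_mod_cast hn'.2)
      have h2 : ArithmeticFunction.vonMangoldt n * ∏ i, lamI (f i n) ≤ Real.log b * Lm ^ k :=
        mul_le_mul hv hprod hprod0 hlb
      have h3 : 0 ≤ Real.log b * Lm ^ k := by positivity
      have h4 : 0 ≤ pp n * Lm ^ k := by positivity
      by_cases hB : n ∈ BP f P
      · rw [if_pos hB]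
        have h5 : (0 : ℝ) ≤ (if n ∈ PS f a b then (1 : ℝ) else 0) := by split_ifs <;> norm_num
        nlinarith
      · by_cases hPS : n ∈ PS f a b
        · rw [if_pos hPS]
          have h5 : (0 : ℝ) ≤ (if n ∈ BP f P then (1 : ℝ) else 0) := by split_ifs <;> norm_num
          nlinarith
        · -- some value is not a prime
          have h5 : ∃ i, ¬ (f i n).toNat.Prime := by
            by_contra hc
            push Not at hc
            apply hPS
            unfold PS
            rw [mem_filter]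
            exact ⟨hn, hp, hc⟩
          obtain ⟨i, hi⟩ := h5
          have h6 : lamI (f i n) = lamP (f i n) := by
            by_contra hc
            apply hB
            unfold BP
            rw [mem_filter, mem_Icc]
            exact ⟨⟨by omega, by omega⟩, i, hc⟩
          have h7 : lamI (f i n) = 0 := by
            rw [h6]
            unfold lamP
            rw [if_neg hi]
          rw [prod_eq_zero (mem_univ i) h7, mul_zero]
          have h8 : (0 : ℝ) ≤ (if n ∈ PS f a b then (1 : ℝ) else 0) + (if n ∈ BP f P then (1 : ℝ) else 0) := by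
            split_ifs <;> norm_num
          positivity
    · have h2 : pp n = ArithmeticFunction.vonMangoldt n := by
        unfold pp lamP
        rw [Int.toNat_natCast, if_neg hp, sub_zero]
      rw [h2]
      have h3 : ArithmeticFunction.vonMangoldt n * ∏ i, lamI (f i n) ≤ ArithmeticFunction.vonMangoldt n * Lm ^ k :=
        mul_le_mul_of_nonneg_left hprod hv0
      have h8 : (0 : ℝ) ≤ (if n ∈ PS f a b then (1 : ℝ) else 0) + (if n ∈ BP f P then (1 : ℝ) else 0) := by
        split_ifs <;> norm_num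
      have h9 : 0 ≤ ((if n ∈ PS f a b then (1 : ℝ) else 0) + (if n ∈ BP f P then (1 : ℝ) else 0)) * (Real.log b * Lm ^ k) := by
        positivity
      linarith
  refine (sum_le_sum h1).trans ?_
  rw [sum_add_distrib, ← sum_mul, ← sum_mul, sum_add_distrib]
  have e1 : ∑ n ∈ Ioc a b, (if n ∈ PS f a b then (1 : ℝ) else 0) ≤ (PS f a b).card := by
    rw [← sum_filter, sum_const, nsmul_eq_mul, mul_one]
    have : ((Ioc a b).filter (fun n => n ∈ PS f a b)).card ≤ (PS f a b).card :=
      card_le_card fun n hn => (mem_filter.1 hn).2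
    exact_mod_cast this
  have e2 : ∑ n ∈ Ioc a b, (if n ∈ BP f P then (1 : ℝ) else 0) ≤ (BP f P).card := by
    rw [← sum_filter, sum_const, nsmul_eq_mul, mul_one]
    have : ((Ioc a b).filter (fun n => n ∈ BP f P)).card ≤ (BP f P).card :=
      card_le_card fun n hn => (mem_filter.1 hn).2
    exact_mod_cast this
  have e3 : ∑ n ∈ Ioc a b, pp n ≤ 2 * √(P : ℝ) * Real.log P := by
    refine le_trans ?_ (sum_pp P (by omega))
    apply sum_le_sum_of_subset_of_nonneg
    · intro n hn
      rw [mem_Ioc] at hn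
      rw [mem_Icc]
      omega
    · intro n _ _
      exact pp_nonneg n
  have e4 : 0 ≤ Real.log b * Lm ^ k := by positivity
  exact add_le_add (mul_le_mul_of_nonneg_right (add_le_add e1 e2) e4) (mul_le_mul_of_nonneg_right e3 hLk)

lemma upp (f : Fin k → ℕ → ℤ) (a b y : ℕ) (h : a ≤ b) (hy : 1 ≤ y) (ll : ℝ) (hll : 0 ≤ ll)
    (hf : ∀ n ∈ Ioc a b, ∀ i, (f i n).toNat.Prime → ll ≤ lamI (f i n)) :
    ((PS f a b).card : ℝ) * (Real.log y * ll ^ k) ≤ y * (Real.log y * ll ^ k) + (RR f b - RR f a) := by
  classical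
  rw [RR_sub f a b h]
  have hly : 0 ≤ Real.log y := Real.log_natCast_nonneg y
  have hlk : 0 ≤ ll ^ k := pow_nonneg hll k
  have h1 : (PS f a b).card ≤ y + ((PS f a b).filter (fun n => y < n)).card := by
    have h2 : PS f a b ⊆ Icc 1 y ∪ (PS f a b).filter (fun n => y < n) := by
      intro n hn
      rw [mem_union, mem_Icc, mem_filter]
      have hn' := hn
      unfold PS at hn'
      rw [mem_filter, mem_Ioc] at hn'
      by_cases h3 : y < n
      · exact Or.inr ⟨hn, h3⟩
      · exact Or.inl ⟨by omega, by omega⟩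
    refine (card_le_card h2).trans ((card_union_le _ _).trans ?_)
    rw [Nat.card_Icc]
    omega
  have h2 : (((PS f a b).filter (fun n => y < n)).card : ℝ) * (Real.log y * ll ^ k) ≤
      ∑ n ∈ Ioc a b, ArithmeticFunction.vonMangoldt n * ∏ i, lamI (f i n) := by
    rw [← nsmul_eq_mul]
    refine le_trans (card_nsmul_le_sum _ (fun n => ArithmeticFunction.vonMangoldt n * ∏ i, lamI (f i n)) _ ?_) ?_
    · intro n hn
      unfold PS at hn
      rw [mem_filter, mem_filter] at hn
      obtain ⟨⟨hnI, hp, hv⟩, hyn⟩ := hn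
      apply mul_le_mul
      · rw [ArithmeticFunction.vonMangoldt_apply_prime hp]
        exact Real.log_le_log (by exact_mod_cast hy) (by exact_mod_cast hyn.le)
      · calc ll ^ k = ∏ _i : Fin k, ll := by rw [prod_const, card_univ, Fintype.card_fin]
          _ ≤ _ := prod_le_prod (fun _ _ => hll) (fun i _ => hf n hnI i (hv i))
      · exact hlk
      · exact ArithmeticFunction.vonMangoldt_nonneg
    · apply sum_le_sum_of_subset_of_nonneg
      · intro n hn
        unfold PS at hn
        rw [mem_filter, mem_filter] at hn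
        exact hn.1.1
      · intro n _ _
        exact mul_nonneg ArithmeticFunction.vonMangoldt_nonneg (prod_nonneg fun i _ => lamI_nonneg _)
  have h3 : ((PS f a b).card : ℝ) ≤ y + (((PS f a b).filter (fun n => y < n)).card : ℝ) := by exact_mod_cast h1
  have h4 := mul_le_mul_of_nonneg_right h3 (by positivity : 0 ≤ Real.log y * ll ^ k)
  linarith

end Pool.Agent.H561.GN
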