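import Pool.Agent.H561.GN.G4
import Pool.Graph.R_seed8.Y820.LF.M0

set_option autoImplicit false

/-! The main term of a system of linear forms at the primes, relative to a short scale. -/

namespace Pool.Agent.H561.GN

open Finset
open Pool.Agent.H373R2.T7
open Pool.Agent.Y820.LF (nuF singF AdmF PosF t_main1)

/-- the system with the additional form `n` -/
abbrev C1 {k : ℕ} (C : Fin k → ℤ) : Fin (k + 1) → ℤ := Fin.cons 1 C
/-- the system with the additional form `n` -/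
abbrev H0 {k : ℕ} (H : Fin k → ℤ) : Fin (k + 1) → ℤ := Fin.cons 0 H

lemma sing_range {k : ℕ} (C H : Fin k → ℤ) (z : ℕ) (hA : AdmF (C1 C) (H0 H)) :
    0 ≤ singF (C1 C) (H0 H) z ∧ singF (C1 C) (H0 H) z ≤ ((Vz z)⁻¹) ^ k := by
  have hV := Vz_pos z
  rw [Pool.Agent.Y820.LF.M0.sing_eq1]
  have h1 : ∀ p ∈ pz z, 0 ≤ 1 - (rhoA (Pool.Agent.Y820.LF.M0.QQ C H) p : ℝ) / (p - 1 : ℝ) ∧
      1 - (rhoA (Pool.Agent.Y820.LF.M0.QQ C H) p : ℝ) / (p - 1 : ℝ) ≤ 1 := by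
    intro p hp
    have hpp := (mem_pz.1 hp).2
    have hp2 : (2 : ℝ) ≤ p := by exact_mod_cast hpp.two_le
    have h2 := hA p hpp
    rw [Pool.Agent.Y820.LF.M0.nuF_cons hpp] at h2
    have h3 : (rhoA (Pool.Agent.Y820.LF.M0.QQ C H) p : ℝ) + 1 ≤ p := by exact_mod_cast h2.le
    have h4 : (rhoA (Pool.Agent.Y820.LF.M0.QQ C H) p : ℝ) / (p - 1 : ℝ) ≤ 1 := by
      rw [div_le_one (by linarith)]
      linarith
    have h5 : 0 ≤ (rhoA (Pool.Agent.Y820.LF.M0.QQ C H) p : ℝ) / (p - 1 : ℝ) :=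
      div_nonneg (Nat.cast_nonneg _) (by linarith)
    constructor <;> linarith
  have h2 : 0 ≤ ∏ p ∈ pz z, (1 - (rhoA (Pool.Agent.Y820.LF.M0.QQ C H) p : ℝ) / (p - 1 : ℝ)) :=
    prod_nonneg fun p hp => (h1 p hp).1
  have h3 : ∏ p ∈ pz z, (1 - (rhoA (Pool.Agent.Y820.LF.M0.QQ C H) p : ℝ) / (p - 1 : ℝ)) ≤ 1 :=
    prod_le_one (fun p hp => (h1 p hp).1) fun p hp => (h1 p hp).2
  have h4 : 0 ≤ ((Vz z)⁻¹) ^ k := by positivity
  exact ⟨mul_nonneg h4 h2, mul_le_of_le_one_right h4 h3⟩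

lemma lamzI_le (z : ℕ) (n : ℤ) : lamzI z n ≤ (Vz z)⁻¹ := by
  have hV := Vz_pos z
  unfold lamzI lamz
  split_ifs
  · exact le_rfl
  · positivity
  · positivity

lemma lamzI_nn (z : ℕ) (n : ℤ) : 0 ≤ lamzI z n := by
  have hV := Vz_pos z
  unfold lamzI lamz
  split_ifs
  · positivity
  · exact le_rfl
  · exact le_rfl

/-- **The main term.** -/
theorem mainG (k E U : ℕ) (hk : 1 ≤ k) : ∃ X₀ : ℕ, ∀ X : ℕ, X₀ ≤ X → ∀ z : ℕ, 1 ≤ z → (z : ℝ) ≤ Real.log X ^ E →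
    ∀ P : ℕ, (X : ℝ) ^ (1 / 5 : ℝ) ≤ P → P ≤ X → ∀ y : ℕ, y ≤ P → ∀ C H : Fin k → ℤ, PosF C H y → AdmF (C1 C) (H0 H) →
    |∑ n ∈ Icc 1 y, ArithmeticFunction.vonMangoldt n * ∏ i, lamzI z (C i * (n : ℤ) + H i) -
      singF (C1 C) (H0 H) z * y| ≤ P / Real.log X ^ U := by
  obtain ⟨n0, h0⟩ := t_main1 k (E + 1) (U + 1) hk
  obtain ⟨n1, h1⟩ := ev_L' (10 ^ (E + 1) + 10 ^ (U + 1) + 10)
  obtain ⟨n2, h2⟩ := Vz_inv_small E
  obtain ⟨n3, h3⟩ := Filter.eventually_atTop.1 (Pool.Agent.helper24_UT.Sil2.ev_pow (k + 1 + U) (1 / 10) 2 (by norm_num))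
  refine ⟨n0 ^ 10 + n1 + n2 + n3 + 3, fun X hX z hz1 hz2 P hP hPX y hy C H hPos hAdm => ?_⟩
  have hL := h1 X (by omega)
  have hV := h2 X (by omega) z hz1 hz2
  have a3 := h3 X (by omega)
  have hX1 : (1 : ℝ) ≤ X := by exact_mod_cast (by omega : 1 ≤ X)
  have hX0 : (0 : ℝ) < X := by linarith
  have hlog10 : Real.log ((X : ℝ) ^ (1 / 10 : ℝ)) = Real.log X / 10 := by
    rw [Real.log_rpow hX0]
    ring
  have hvm : ∀ n ∈ Icc 1 y, (ArithmeticFunction.vonMangoldt n : ℝ) ≤ Real.log X := by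
    intro n hn
    rw [mem_Icc] at hn
    refine ArithmeticFunction.vonMangoldt_le_log.trans ?_
    exact Real.log_le_log (by exact_mod_cast hn.1) (by exact_mod_cast (hn.2.trans hy).trans hPX)
  obtain ⟨L, hLd⟩ : ∃ L, L = Real.log (X : ℝ) := ⟨_, rfl⟩
  rw [← hLd] at hL hV a3 hz2 hlog10 hvm ⊢
  have p1 : (0 : ℝ) < 10 ^ (E + 1) := by positivity
  have p2 : (0 : ℝ) < 10 ^ (U + 1) := by positivity
  have hL1 : 1 ≤ L := by linarith
  have hL0 : 0 < L := by linarith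
  have hs : 0 < (X : ℝ) ^ (1 / 10 : ℝ) := by positivity
  have hP10 : (X : ℝ) ^ (1 / 10 : ℝ) * (X : ℝ) ^ (1 / 10 : ℝ) ≤ P := by
    rw [← Real.rpow_add hX0]
    refine le_trans (le_of_eq ?_) hP
    congr 1
    norm_num
  have hP0 : (0 : ℝ) < P := lt_of_lt_of_le (by positivity) hP10
  obtain ⟨hs0, hs1⟩ := sing_range C H z hAdm
  obtain ⟨S, hS⟩ : ∃ S, S = singF (C1 C) (H0 H) z := ⟨_, rfl⟩
  rw [← hS] at hs0 hs1 ⊢
  have hVp : 0 < (Vz z)⁻¹ := inv_pos.2 (Vz_pos z)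
  have hVk : ((Vz z)⁻¹) ^ k ≤ L ^ k := pow_le_pow_left₀ hVp.le hV k
  have hyP : (y : ℝ) ≤ P := by exact_mod_cast hy
  rcases le_or_gt ((X : ℝ) ^ (1 / 10 : ℝ)) y with hc | hc
  · have hy0 : (0 : ℝ) < y := lt_of_lt_of_le hs hc
    have hly : L / 10 ≤ Real.log y := by
      rw [← hlog10]
      exact Real.log_le_log hs hc
    have hly0 : 0 < Real.log y := by linarith
    have hyn : n0 ≤ y := by
      have e1 : (n0 : ℝ) ≤ (X : ℝ) ^ (1 / 10 : ℝ) := by
        have e2 : (n0 : ℝ) ^ 10 ≤ X := by exact_mod_cast (by omega : n0 ^ 10 ≤ X)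
        calc (n0 : ℝ) = ((n0 : ℝ) ^ 10) ^ (1 / 10 : ℝ) := by
              rw [← Real.rpow_natCast, ← Real.rpow_mul (Nat.cast_nonneg _)]
              norm_num
          _ ≤ (X : ℝ) ^ (1 / 10 : ℝ) := Real.rpow_le_rpow (by positivity) e2 (by norm_num)
      exact_mod_cast e1.trans hc
    have hzy : (z : ℝ) ≤ Real.log y ^ (E + 1) := by
      refine hz2.trans ?_
      calc L ^ E ≤ (L / 10) ^ (E + 1) := by
            rw [div_pow, le_div_iff₀ (by positivity), pow_succ L E]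
            apply mul_le_mul_of_nonneg_left _ (by positivity)
            linarith
        _ ≤ _ := pow_le_pow_left₀ (by positivity) hly _
    have g := h0 y hyn z hz1 hzy C H hPos hAdm
    rw [hS]
    refine g.trans ?_
    rw [div_le_div_iff₀ (by positivity) (by positivity)]
    have e1 : L ^ U ≤ Real.log y ^ (U + 1) := by
      calc L ^ U ≤ (L / 10) ^ (U + 1) := by
            rw [div_pow, le_div_iff₀ (by positivity), pow_succ L U]
            apply mul_le_mul_of_nonneg_left _ (by positivity)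
            linarith
        _ ≤ _ := pow_le_pow_left₀ (by positivity) hly _
    exact mul_le_mul hyP e1 (by positivity) hP0.le
  · -- short sums
    have g1 : |∑ n ∈ Icc 1 y, ArithmeticFunction.vonMangoldt n * ∏ i, lamzI z (C i * (n : ℤ) + H i)| ≤ y * (L * L ^ k) := by
      rw [abs_of_nonneg (sum_nonneg fun n _ => mul_nonneg ArithmeticFunction.vonMangoldt_nonneg
        (prod_nonneg fun i _ => lamzI_nn z _))]
      have : ∀ n ∈ Icc 1 y, ArithmeticFunction.vonMangoldt n * ∏ i, lamzI z (C i * (n : ℤ) + H i) ≤ L * L ^ k := by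
        intro n hn
        apply mul_le_mul (hvm n hn) _ (prod_nonneg fun i _ => lamzI_nn z _) hL0.le
        calc ∏ i, lamzI z (C i * (n : ℤ) + H i) ≤ ∏ _i : Fin k, L :=
              prod_le_prod (fun i _ => lamzI_nn z _) fun i _ => (lamzI_le z _).trans hV
          _ = L ^ k := by rw [prod_const, card_univ, Fintype.card_fin]
      refine (sum_le_card_nsmul _ _ _ this).trans (le_of_eq ?_)
      rw [Nat.card_Icc, nsmul_eq_mul, Nat.add_sub_cancel]
    have hy0 : (0 : ℝ) ≤ y := Nat.cast_nonneg _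
    have g2 : |S * y| ≤ y * (L * L ^ k) := by
      rw [abs_of_nonneg (mul_nonneg hs0 hy0), mul_comm]
      apply mul_le_mul_of_nonneg_left _ hy0
      calc S ≤ 1 * L ^ k := by rw [one_mul]; exact hs1.trans hVk
        _ ≤ L * L ^ k := mul_le_mul_of_nonneg_right hL1 (by positivity)
    have g3 : 2 * (y * (L * L ^ k)) ≤ P / L ^ U := by
      rw [le_div_iff₀ (by positivity)]
      calc 2 * (y * (L * L ^ k)) * L ^ U = y * (2 * L ^ (k + 1 + U)) := by ring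
        _ ≤ (X : ℝ) ^ (1 / 10 : ℝ) * (X : ℝ) ^ (1 / 10 : ℝ) := mul_le_mul hc.le a3 (by positivity) hs.le
        _ ≤ P := hP10
    refine (abs_sub _ _).trans ?_
    linarith

end Pool.Agent.H561.GN
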